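import Pool.Agent.H79.QF.Targets

/-!
# MP_0f8dca_lc, board qfg_modules: row PRL
-/

set_option autoImplicit false

open Finset Matrix Pool.Agent.H1.Mono Pool.Agent.H79.QF

namespace Pool.Agent.H16.QF

theorem pf_PRL (hAVX : T_AVX) (hRSM : T_RSM) (hREC : T_REC) : T_PRL := by
  intro R s Ω X _ _ _ _ K Q P ε hR hP hε ha hp hT
  obtain ⟨g, hg⟩ : ∃ g : ℝ, g = 1 - 2 * ε := ⟨_, rfl⟩
  have hg0 : 0 < g := by rw [hg]; linarith
  have h1 := hAVX R s Ω X K Q P ε hR hP hε ha hp hT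
  rw [← hg] at h1 ⊢
  have hTpos : 0 < Q.T := by
    obtain ⟨j, hj, -⟩ := h1 (fun _ => Classical.arbitrary Ω) 0 (by omega)
    omega
  have hTr : (0 : ℝ) < Q.T := by exact_mod_cast hTpos
  obtain ⟨y, hy⟩ := hRSM R s Ω X K Q (g ^ 2 / (64 * (Q.T : ℝ) ^ 2)) (by positivity) (by
    intro y t ht
    obtain ⟨j, hj, h2⟩ := h1 y t ht
    refine ⟨j, hj, ?_⟩
    rw [div_le_iff₀ (by positivity)]
    linarith)
  have h3 := hREC Q.T s Q P hP (fun t => K.a y t) 0 R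
    (fun t _ ht u h => K.mono y t u ht h) (g ^ 2 / (1024 * (Q.T : ℝ) ^ 4)) (g / (16 * Q.T))
    (by positivity) (by
      have h4 : Real.sqrt (g ^ 2 / (1024 * (Q.T : ℝ) ^ 4)) = g / (32 * (Q.T : ℝ) ^ 2) := by
        rw [show g ^ 2 / (1024 * (Q.T : ℝ) ^ 4) = (g / (32 * (Q.T : ℝ) ^ 2)) ^ 2 by
          field_simp
          norm_num]
        exact Real.sqrt_sq (by positivity)
      rw [h4]
      refine le_of_eq ?_
      field_simp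
      norm_num)
  have h5 : Nat.card {t : ℕ // 0 ≤ t ∧ t < R ∧ ∃ j < Q.T, (g / (16 * (Q.T : ℝ))) ^ 2 ≤
      Q.wt (K.a y t) j fun u => ¬ K.a y t u ∧ K.a y (t + 1) u} =
      Nat.card {t : ℕ // t < R ∧ ∃ j < Q.T, g ^ 2 / (64 * (Q.T : ℝ) ^ 2) / 4 ≤
        Q.wt (K.a y t) j fun u => ¬ K.a y t u ∧ K.a y (t + 1) u} := by
    refine Nat.card_congr (Equiv.subtypeEquivRight fun t => ?_)
    have h6 : (g / (16 * (Q.T : ℝ))) ^ 2 = g ^ 2 / (64 * (Q.T : ℝ) ^ 2) / 4 := by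
      field_simp
      norm_num
    rw [h6]
    exact ⟨fun h => h.2, fun h => ⟨Nat.zero_le _, h⟩⟩
  rw [h5] at h3
  have h7 : (R : ℝ) ≤ 3 * (Nat.card {t : ℕ // t < R ∧ ∃ j < Q.T,
      g ^ 2 / (64 * (Q.T : ℝ) ^ 2) / 4 ≤
        Q.wt (K.a y t) j fun u => ¬ K.a y t u ∧ K.a y (t + 1) u} : ℝ) := by
    exact_mod_cast hy
  have h8 : (P : ℝ) / (g ^ 2 / (1024 * (Q.T : ℝ) ^ 4)) =
      1024 * (Q.T : ℝ) ^ 4 * P / g ^ 2 := by
    field_simp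
  rw [h8] at h3
  linarith

end Pool.Agent.H16.QF
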