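import Pool.Agent.H79.QF.Targets

/-!
# MP_0f8dca_lc, board qfg_modules: row REC
-/

set_option autoImplicit false

open Finset Matrix Pool.Agent.H1.Mono Pool.Agent.H79.QF

namespace Pool.Agent.H16.QF

theorem card_eq (a b : ℕ) (c : ℕ → Prop) [DecidablePred c] :
    Nat.card {t : ℕ // a ≤ t ∧ t < b ∧ c t} = ((Ico a b).filter c).card := by
  refine Nat.subtype_card _ fun t => ?_
  rw [mem_filter, mem_Ico, and_assoc]

theorem wt_eq {s : ℕ} (Q : GQ s) (v : Fin s → Prop) (j : ℕ) (D : Fin s → Prop)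
    [∀ i, Decidable (∃ u ∈ Q.ask i, D u)] :
    Q.wt v j D = ∑ i, if ∃ u ∈ Q.ask i, D u then ‖Q.state v j i‖ ^ 2 else 0 := by
  unfold GQ.wt
  refine sum_congr rfl fun i _ => ?_
  by_cases h : ∃ u ∈ Q.ask i, D u
  · rw [if_pos h, if_pos h]
  · rw [if_neg h, if_neg h]

theorem wt_nonneg {s : ℕ} (Q : GQ s) (v : Fin s → Prop) (j : ℕ) (D : Fin s → Prop) :
    0 ≤ Q.wt v j D := by
  classical
  rw [wt_eq]
  refine sum_nonneg fun i _ => ?_
  split_ifs
  · positivity
  · exact le_rfl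

theorem wt_zero {s : ℕ} (Q : GQ s) (v v' : Fin s → Prop) (D : Fin s → Prop) :
    Q.wt v 0 D = Q.wt v' 0 D := rfl

/-- the weights of disjoint sets of gates -/
theorem sum_wt_le (hNRM : T_NRM) {s : ℕ} (Q : GQ s) (P : ℕ) (hP : Q.Par P) (v : ℕ → Fin s → Prop)
    (a b : ℕ) (hm : ∀ t, a ≤ t → t < b → ∀ u, v t u → v (t + 1) u) (w : Fin s → Prop) :
    ∑ l ∈ Ico a b, Q.wt w 0 (fun u => ¬ v l u ∧ v (l + 1) u) ≤ P := by
  classical
  have hmono : ∀ t t', a ≤ t → t ≤ t' → t' ≤ b → ∀ u, v t u → v t' u := by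
    intro t t' h1 h2
    induction t', h2 using Nat.le_induction with
    | base => intro _ u h; exact h
    | succ t' h2 ih =>
      intro h3 u h
      exact hm t' (by omega) (by omega) u (ih (by omega) u h)
  have h0 : ∑ l ∈ Ico a b, Q.wt w 0 (fun u => ¬ v l u ∧ v (l + 1) u) =
      ∑ i, ∑ l ∈ Ico a b, (if ∃ u ∈ Q.ask i, ¬ v l u ∧ v (l + 1) u then
      ‖Q.state w 0 i‖ ^ 2 else 0) := by
    rw [sum_comm]
    exact sum_congr rfl fun l _ => wt_eq Q w 0 _
  rw [h0]
  have h1 : ∀ i : Q.basis, ∑ l ∈ Ico a b, (if ∃ u ∈ Q.ask i, ¬ v l u ∧ v (l + 1) u then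
      ‖Q.state w 0 i‖ ^ 2 else 0) ≤ P * ‖Q.state w 0 i‖ ^ 2 := by
    intro i
    rw [← sum_filter, sum_const, nsmul_eq_mul]
    refine mul_le_mul_of_nonneg_right ?_ (by positivity)
    have h2 : ((Ico a b).filter fun l => ∃ u ∈ Q.ask i, ¬ v l u ∧ v (l + 1) u).card ≤
        (Q.ask i).card := by
      have h3 : ∀ l ∈ (Ico a b).filter fun l => ∃ u ∈ Q.ask i, ¬ v l u ∧ v (l + 1) u,
          ∃ u : Fin s, u ∈ Q.ask i ∧ ¬ v l u ∧ v (l + 1) u := fun l hl => (mem_filter.1 hl).2
      have h4 : ∃ f : ℕ → Option (Fin s), ∀ l ∈ (Ico a b).filter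
          fun l => ∃ u ∈ Q.ask i, ¬ v l u ∧ v (l + 1) u,
          ∃ u, f l = some u ∧ u ∈ Q.ask i ∧ ¬ v l u ∧ v (l + 1) u := by
        refine ⟨fun l => if h : l ∈ (Ico a b).filter
          (fun l => ∃ u ∈ Q.ask i, ¬ v l u ∧ v (l + 1) u) then some (h3 l h).choose else none,
          fun l hl => ⟨(h3 l hl).choose, dif_pos hl, (h3 l hl).choose_spec⟩⟩
      obtain ⟨f, hf⟩ := h4
      rw [← card_map ⟨(some : Fin s → Option (Fin s)), Option.some_injective _⟩]
      refine card_le_card_of_injOn f (fun l hl => ?_) ?_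
      · obtain ⟨u, hu, hu2, -⟩ := hf l hl
        rw [hu]
        exact mem_coe.2 (mem_map.2 ⟨u, hu2, rfl⟩)
      intro l hl l' hl' hll
      have hl1 := mem_Ico.1 (mem_filter.1 hl).1
      have hl1' := mem_Ico.1 (mem_filter.1 hl').1
      obtain ⟨u, hu, -, hl2⟩ := hf l hl
      obtain ⟨u', hu', -, hl2'⟩ := hf l' hl'
      have huu : u = u' := by
        rw [hu, hu'] at hll
        exact Option.some_injective _ hll
      subst huu
      rcases Nat.lt_trichotomy l l' with h | h | h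
      · exfalso
        exact hl2'.1 (hmono (l + 1) l' (by omega) (by omega) (by omega) _ hl2.2)
      · exact h
      · exfalso
        exact hl2.1 (hmono (l' + 1) l (by omega) (by omega) (by omega) _ hl2'.2)
    exact_mod_cast h2.trans (hP i)
  refine (sum_le_sum fun i _ => h1 i).trans ?_
  rw [← mul_sum, hNRM, mul_one]

/-- the weight of a union -/
theorem wt_union_le {s : ℕ} (Q : GQ s) (w : Fin s → Prop) (D : Fin s → Prop)
    (S : Finset ℕ) (F : ℕ → Fin s → Prop) (h : ∀ u, D u → ∃ l ∈ S, F l u) :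
    Q.wt w 0 D ≤ ∑ l ∈ S, Q.wt w 0 (F l) := by
  classical
  have h0 : ∑ l ∈ S, Q.wt w 0 (F l) = ∑ i, ∑ l ∈ S, (if ∃ u ∈ Q.ask i, F l u then
      ‖Q.state w 0 i‖ ^ 2 else 0) := by
    rw [sum_comm]
    exact sum_congr rfl fun l _ => wt_eq Q w 0 _
  rw [h0, wt_eq]
  refine sum_le_sum fun i _ => ?_
  split_ifs with hi
  · obtain ⟨u, hu, hD⟩ := hi
    obtain ⟨l, hl, hF⟩ := h u hD
    have h1 : (if ∃ u ∈ Q.ask i, F l u then ‖Q.state w 0 i‖ ^ 2 else 0) =
        ‖Q.state w 0 i‖ ^ 2 := if_pos ⟨u, hu, hF⟩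
    refine le_trans (le_of_eq h1.symm) ?_
    refine single_le_sum (f := fun l => if ∃ u ∈ Q.ask i, F l u then
      ‖Q.state w 0 i‖ ^ 2 else 0) (fun l _ => ?_) hl
    show 0 ≤ if ∃ u ∈ Q.ask i, F l u then ‖Q.state w 0 i‖ ^ 2 else 0
    split_ifs
    · positivity
    · exact le_rfl
  · refine sum_nonneg fun l _ => ?_
    split_ifs
    · positivity
    · exact le_rfl

theorem pf_REC (hBLK : T_BLK) (hDRP : T_DRP) (hNRM : T_NRM) : T_REC := by
  classical
  intro T
  induction T with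
  | zero =>
    intro s Q P hP v a b hm η γ hη hγ
    have h : Nat.card {t : ℕ // a ≤ t ∧ t < b ∧ ∃ j < 0, γ ^ 2 ≤ Q.wt (v t) j fun u =>
        ¬ v t u ∧ v (t + 1) u} = 0 := by
      rw [card_eq]
      rw [card_eq_zero, filter_eq_empty_iff]
      rintro t - ⟨j, hj, -⟩
      omega
    rw [h, pow_zero]
    norm_num
  | succ T ih =>
    intro s Q P hP v a b hm η γ hη hγ
    have hsη : 0 < Real.sqrt η := Real.sqrt_pos.2 hη
    have hγ0 : 0 ≤ γ := le_trans (by positivity) hγ
    have hγ1 : η ≤ γ ^ 2 := by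
      have h1 : Real.sqrt η ≤ γ := by
        refine le_trans ?_ hγ
        push_cast
        nlinarith [hsη, (Nat.cast_nonneg T : (0 : ℝ) ≤ T), mul_nonneg (Nat.cast_nonneg T : (0 : ℝ) ≤ T) hsη.le]
      calc η = Real.sqrt η ^ 2 := (Real.sq_sqrt hη.le).symm
        _ ≤ γ ^ 2 := by gcongr
    have hPη : 0 ≤ (P : ℝ) / η := by positivity
    obtain ⟨F, hF⟩ : ∃ F : ℕ → Fin s → Prop, ∀ t, F t = fun u => ¬ v t u ∧ v (t + 1) u :=
      ⟨_, fun _ => rfl⟩
    obtain ⟨μ, hμ⟩ : ∃ μ : ℕ → ℝ, μ = fun t => if a ≤ t ∧ t < b then Q.wt (v 0) 0 (F t) else 0 :=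
      ⟨_, rfl⟩
    have hμ0 : ∀ t, 0 ≤ μ t := by
      intro t
      rw [hμ]
      show 0 ≤ if a ≤ t ∧ t < b then Q.wt (v 0) 0 (F t) else 0
      split_ifs
      · exact wt_nonneg _ _ _ _
      · exact le_rfl
    have hμ1 : ∀ t, a ≤ t → t < b → μ t = Q.wt (v 0) 0 (F t) := by
      intro t h1 h2
      rw [hμ]
      exact if_pos ⟨h1, h2⟩
    have hμs : ∑ l ∈ Ico a b, μ l ≤ P := by
      have h1 := sum_wt_le hNRM Q P hP v a b hm (v 0)
      refine le_trans (le_of_eq (sum_congr rfl fun l hl => ?_)) h1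
      rw [mem_Ico] at hl
      rw [hμ1 l hl.1 hl.2, hF]
    obtain ⟨K, hK⟩ : ∃ K : ℝ, K = (P / η + 1) ^ T - 1 := ⟨_, rfl⟩
    have hK0 : 0 ≤ K := by
      rw [hK, sub_nonneg]
      exact one_le_pow₀ (by linarith)
    -- the two sets
    have hcov : (Ico a b).filter (fun t => ∃ j < T + 1, γ ^ 2 ≤ Q.wt (v t) j (F t)) ⊆
        (Ico a b).filter (fun t => γ ^ 2 ≤ μ t) ∪
        (Ico a b).filter (fun t => ∃ j < T, γ ^ 2 ≤ Q.wt (v t) (j + 1) (F t)) := by
      intro t ht
      rw [mem_filter] at ht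
      obtain ⟨ht1, j, hj, hj2⟩ := ht
      rw [mem_union, mem_filter, mem_filter]
      rcases j with _ | j
      · left
        refine ⟨ht1, ?_⟩
        rw [mem_Ico] at ht1
        rw [hμ1 t ht1.1 ht1.2]
        exact hj2
      · right
        exact ⟨ht1, j, by omega, hj2⟩
    have hS0 : (((Ico a b).filter (fun t => γ ^ 2 ≤ μ t)).card : ℝ) ≤ P / η := by
      rw [le_div_iff₀ hη]
      calc (((Ico a b).filter (fun t => γ ^ 2 ≤ μ t)).card : ℝ) * η
          = ∑ t ∈ (Ico a b).filter (fun t => γ ^ 2 ≤ μ t), η := by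
            rw [sum_const, nsmul_eq_mul]
        _ ≤ ∑ t ∈ (Ico a b).filter (fun t => γ ^ 2 ≤ μ t), μ t :=
            sum_le_sum fun t ht => hγ1.trans (mem_filter.1 ht).2
        _ ≤ ∑ t ∈ Ico a b, μ t :=
            sum_le_sum_of_subset_of_nonneg (filter_subset _ _) fun t _ _ => hμ0 t
        _ ≤ P := hμs
    have hS1 : (((Ico a b).filter
        (fun t => ∃ j < T, γ ^ 2 ≤ Q.wt (v t) (j + 1) (F t))).card : ℝ) ≤ (P / η + 1) * K := by
      by_cases hab : a ≤ b
      swap
      · rw [Ico_eq_empty (by omega), filter_empty, card_empty]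
        simp only [Nat.cast_zero]
        positivity
      have h1 := hBLK μ η K (fun t => a ≤ t ∧ t < b ∧
        ∃ j < T, γ ^ 2 ≤ Q.wt (v t) (j + 1) (F t)) hη hK0 hμ0 ?_ a b hab
      · rw [card_eq] at h1
        refine le_trans (le_of_eq ?_) (h1.trans ?_)
        · congr 2
          refine filter_congr fun t ht => ?_
          rw [mem_Ico] at ht
          exact ⟨fun h => ⟨ht.1, ht.2, h⟩, fun h => h.2.2⟩
        · refine mul_le_mul_of_nonneg_right ?_ hK0
          rw [← sum_div]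
          gcongr
      · intro a' b' hab' hblk
        rw [card_eq]
        obtain ⟨a2, ha2⟩ : ∃ a2, a2 = max a a' := ⟨_, rfl⟩
        obtain ⟨b2, hb2⟩ : ∃ b2, b2 = min b b' := ⟨_, rfl⟩
        obtain ⟨Q', hQ', hD⟩ := hDRP s Q P hP (v a2)
        obtain ⟨γ', hγ'⟩ : ∃ γ' : ℝ, γ' = γ - 2 * Real.sqrt η := ⟨_, rfl⟩
        have hγ'1 : 2 * T * Real.sqrt η ≤ γ' := by
          rw [hγ']
          push_cast at hγ
          nlinarith
        have hγ'0 : 0 ≤ γ' := le_trans (by positivity) hγ'1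
        have h2 := ih s Q' P hQ' v a2 b2 (fun t h1 h2 u h => hm t (by omega) (by omega) u h)
          η γ' hη hγ'1
        simp only [← hF] at h2
        rw [card_eq] at h2
        rw [hK]
        refine le_trans ?_ (by linarith [h2] : (((Ico a2 b2).filter fun t => ∃ j < T,
          γ' ^ 2 ≤ Q'.wt (v t) j (F t)).card : ℝ) ≤ (P / η + 1) ^ T - 1)
        rw [Nat.cast_le]
        refine card_le_card ?_
        intro t ht
        rw [mem_filter, mem_Ico] at ht
        obtain ⟨⟨ht1, ht2⟩, ht3, ht4, j, hj, hj2⟩ := ht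
        rw [mem_filter, mem_Ico]
        have ht5 : a2 ≤ t := by omega
        have ht6 : t < b2 := by omega
        refine ⟨⟨ht5, ht6⟩, j, hj, ?_⟩
        -- the weight in the first round
        have h3 : Q.wt (v t) 0 (fun u => ¬ (v t u ↔ v a2 u)) ≤ η := by
          have h4 : Q.wt (v t) 0 (fun u => ¬ (v t u ↔ v a2 u)) ≤
              ∑ l ∈ Ico a2 t, Q.wt (v t) 0 (F l) := by
            refine wt_union_le Q (v t) _ (Ico a2 t) F ?_
            intro u hu
            by_contra hcon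
            have hmono : ∀ t', a2 ≤ t' → t' ≤ t → (v t' u ↔ v a2 u) := by
              intro t' h5
              induction t', h5 using Nat.le_induction with
              | base => intro _; exact Iff.rfl
              | succ t' h5 ih2 =>
                intro h6
                have h7 := ih2 (by omega)
                constructor
                · intro h8
                  by_contra h9
                  refine hcon ⟨t', mem_Ico.2 ⟨h5, by omega⟩, ?_⟩
                  rw [hF]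
                  exact ⟨fun h10 => h9 (h7.1 h10), h8⟩
                · intro h8
                  exact hm t' (by omega) (by omega) u (h7.2 h8)
            exact hu (hmono t ht5 le_rfl)
          refine h4.trans (le_trans ?_ (hblk t ht1 ht2))
          calc ∑ l ∈ Ico a2 t, Q.wt (v t) 0 (F l) = ∑ l ∈ Ico a2 t, μ l := by
                refine sum_congr rfl fun l hl => ?_
                rw [mem_Ico] at hl
                rw [hμ1 l (by omega) (by omega)]
                exact wt_zero Q _ _ _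
            _ ≤ ∑ l ∈ Ico a' t, μ l := by
                refine sum_le_sum_of_subset_of_nonneg ?_ fun l _ _ => hμ0 l
                exact Ico_subset_Ico_left (by omega)
        have h5 := hD (v t) j (F t)
        have h6 : Real.sqrt (Q.wt (v t) 0 fun u => ¬ (v t u ↔ v a2 u)) ≤ Real.sqrt η :=
          Real.sqrt_le_sqrt h3
        have h7 : γ ≤ Real.sqrt (Q.wt (v t) (j + 1) (F t)) := by
          rw [← Real.sqrt_sq hγ0]
          exact Real.sqrt_le_sqrt hj2
        have h8 : γ' ≤ Real.sqrt (Q'.wt (v t) j (F t)) := by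
          rw [hγ']
          linarith
        calc γ' ^ 2 ≤ Real.sqrt (Q'.wt (v t) j (F t)) ^ 2 := by gcongr
          _ = Q'.wt (v t) j (F t) := Real.sq_sqrt (wt_nonneg _ _ _ _)
    have hfin : (((Ico a b).filter
        (fun t => ∃ j < T + 1, γ ^ 2 ≤ Q.wt (v t) j (F t))).card : ℝ) + 1 ≤
        (P / η + 1) ^ (T + 1) := by
      have h1 : ((((Ico a b).filter
          (fun t => ∃ j < T + 1, γ ^ 2 ≤ Q.wt (v t) j (F t))).card : ℕ) : ℝ) ≤
          (((Ico a b).filter (fun t => γ ^ 2 ≤ μ t)).card : ℝ) +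
          (((Ico a b).filter
            (fun t => ∃ j < T, γ ^ 2 ≤ Q.wt (v t) (j + 1) (F t))).card : ℝ) := by
        exact_mod_cast (card_le_card hcov).trans (card_union_le _ _)
      have h2 : (P / η + 1) ^ (T + 1) = (P / η + 1) * (K + 1) := by
        rw [hK]
        ring
      rw [h2]
      linarith
    simp only [← hF]
    rw [card_eq]
    exact hfin

end Pool.Agent.H16.QF
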