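import Pool.Agent.H79.QF.Targets
import Pool.Agent.H78.FG.Core

/-!
# MP_0f8dca_lc, board qfg_modules: row ZOC
-/

set_option autoImplicit false

open Finset Matrix Pool.Agent.H1.Mono Pool.Agent.H78.FG Pool.Agent.H79.QF

namespace Pool.Agent.H16.QF

theorem pf_ZOC (hFR : FR2_target) (hPART : PART_target) : T_ZOC := by
  classical
  intro n m σ ν h a b j0 Δ lam T0 M hν hh hh1 hh2 hb hm hn hlam0 hlam1 hT0 hΔ hj0 hj0d hpart0
    hlam S hS
  obtain ⟨π, hπ⟩ := exists_holes hh1 hh2
  have hν0 : 0 < ν := by omega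
  have hcard : Fintype.card ((Fin σ → Bool) × Row ν b) ≤ Fintype.card {j // j ∈ M} := by
    rw [Fintype.card_coe, Fintype.card_prod, Fintype.card_prod, Fintype.card_prod,
      Fintype.card_prod, Fintype.card_fun, Fintype.card_fun, Fintype.card_fin, Fintype.card_fin,
      Fintype.card_fin, Fintype.card_bool]
    refine le_trans (le_of_eq ?_) hm
    rw [show (4 : ℕ) = 2 * 2 by norm_num, mul_pow 2 2 b]
    ring
  obtain ⟨e, he, heM⟩ : ∃ e : (Fin σ → Bool) × Row ν b → Fin m, Function.Injective e ∧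
      ∀ p, e p ∈ M := by
    obtain ⟨e⟩ := Function.Embedding.nonempty_of_card_le hcard
    exact ⟨fun p => (e p).1, fun p q hpq => e.injective (Subtype.ext hpq), fun p => (e p).2⟩
  have en : (Fin σ → Bool) ≃ Fin (2 ^ σ) := Fintype.equivFinOfCardEq (by
    rw [Fintype.card_fun, Fintype.card_fin, Fintype.card_bool])
  have hXcard : Fintype.card (Fin ν → Fin b → Bool) = 2 ^ (b * ν) := by
    rw [Fintype.card_fun, Fintype.card_fun, Fintype.card_fin, Fintype.card_fin,
      Fintype.card_bool, ← pow_mul]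
  have hdep : ∀ (y y' : Fin (2 ^ σ) → Fin ν → (Fin b → Bool) → Fin a → Bool) (t : ℕ)
      (Z : Row ν b → Fin 3), (∀ i : Fin (2 ^ σ), i.1 < t → y i = y' i) →
      stAll en (hol π y) t Z = stAll en (hol π y') t Z := by
    intro y y' t Z h1
    refine stAll_congr en (fun i hi => ?_) Z
    show (fun j q => π (y i j q)) = fun j q => π (y' i j q)
    rw [h1 i hi]
  refine ⟨Fin ν → (Fin b → Bool) → Fin a → Bool, Fin ν → Fin b → Bool,
    inferInstance, inferInstance, ⟨fun _ _ _ => false⟩, ⟨fun _ _ => false⟩,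
    fun y t => form2 hb e (stAll en (hol π y) t fun _ => 0),
    fun y t x => form2 hb e (stAll en (hol π y) t (stP x)), ?_, ?_, ?_, ?_, ?_, ?_, ?_, ?_, ?_⟩
  · exact fun y t l hl => form2_mono hb e (fun τ r => stAll_le_succ en (hol π y) t τ r) l hl
  · exact fun y t x l hl => form2_mono hb e (fun τ r => stAll_zero_le en _ _ _ τ r) l hl
  · intro y y' t h1
    refine ⟨?_, ?_⟩
    · show form2 hb e (stAll en (hol π y) t fun _ => 0) =
        form2 hb e (stAll en (hol π y') t fun _ => 0)
      rw [hdep y y' t _ h1]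
    · funext x
      show form2 hb e (stAll en (hol π y) t (stP x)) = form2 hb e (stAll en (hol π y') t (stP x))
      rw [hdep y y' t _ h1]
  · exact fun y t => unsat_pre hν0 hb en (hol π y) t fun i X => php hπ (by omega) (y i) X
  · exact fun y t ht x => sat_plant hb hn he en (hol π y) ⟨t, ht⟩ x
  · intro y t j hj l
    show form2 hb e (stAll en (hol π y) t fun _ => 0) (j, l) = true
    rw [form2_true]
    intro τ r hr
    have hr' : e (τ, r) = j := hr
    exact absurd (hr' ▸ heM (τ, r)) hj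
  · exact fun y t => form2_narrow hb hn e _
  · exact fun y t x => form2_narrow hb hn e _
  intro s C hs y t hhalf
  obtain ⟨hs1, hs2⟩ := hS s hs
  obtain ⟨Y0, hY0⟩ : ∃ Y0 : Finset (Fin ν → (Fin b → Bool) → Fin a → Bool), Y0 =
      univ.filter fun ω => ¬ C.Accepts (form2 hb e
        (stAll en (hol π (Function.update y t ω)) (t.1 + 1) fun _ => 0)) := ⟨_, rfl⟩
  have hY0c : Nat.card {ω : Fin ν → (Fin b → Bool) → Fin a → Bool // ¬ C.Accepts (form2 hb e
        (stAll en (hol π (Function.update y t ω)) (t.1 + 1) fun _ => 0))} = Y0.card := by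
    refine Nat.subtype_card _ fun ω => ?_
    rw [hY0, mem_filter]
    exact ⟨fun h => h.2, fun h => ⟨mem_univ _, h⟩⟩
  obtain ⟨S1, hS1⟩ : ∃ S1 : Finset (Fin ν → Fin b → Bool), S1 =
      univ.filter fun x => C.Accepts (form2 hb e (stAll en (hol π y) t.1 (stP x))) := ⟨_, rfl⟩
  have hS1c : Nat.card {x : Fin ν → Fin b → Bool // C.Accepts (form2 hb e
      (stAll en (hol π y) t.1 (stP x)))} = S1.card := by
    refine Nat.subtype_card _ fun x => ?_
    rw [hS1, mem_filter]
    exact ⟨fun h => h.2, fun h => ⟨mem_univ _, h⟩⟩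
  have h1 := zero_one_hole hFR hPART (K := 2) hπ hν hh hb he en hlam0 hlam1 hT0 hΔ hj0 hj0d
    hpart0 hlam hs1 C t (hol π y) Y0 (by
      intro ω hω
      rw [hY0, mem_filter, hol_update, stAll_succ] at hω
      exact hω.2) (by
      rw [← hY0c]
      exact hhalf) S1 (by
      intro x hx
      rw [hS1, mem_filter] at hx
      exact hx.2)
  show 2 ^ σ * Nat.card {x : Fin ν → Fin b → Bool // C.Accepts (form2 hb e
      (stAll en (hol π y) t.1 (stP x)))} ≤ Fintype.card (Fin ν → Fin b → Bool)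
  rw [hS1c, hXcard]
  have h2 : (S1.card : ℝ) * 2 ^ σ ≤ 2 ^ (b * ν) := by
    refine le_trans ?_ hs2
    exact mul_le_mul_of_nonneg_right h1 (by positivity)
  have h3 : 2 ^ σ * S1.card ≤ 2 ^ (b * ν) := by
    rw [mul_comm]
    exact_mod_cast h2
  exact h3

end Pool.Agent.H16.QF
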